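import Mathlib
import Pool.Agent.helper62.MS.SpecE

/-!
# Row AFF of project MS (MP_07c750_an)
-/

set_option autoImplicit false

open scoped MatrixGroups Topology UpperHalfPlane
open UpperHalfPlane MeasureTheory Filter Set

namespace Pool.Agent.MS

open Pool.Agent.EN (XG MG mkX mkM fl pr Hn)
open Pool.Agent.LL (Sys cyl)

theorem AFF_mp {X : Type} [MeasurableSpace X] {μ : Measure X} {T : X → X} {Y : Set X}
    (hT : MeasurePreserving T μ μ) (hY : MeasurableSet Y) (h : ∀ x, T x ∈ Y ↔ x ∈ Y) :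
    MeasurePreserving T (ProbabilityTheory.cond μ Y) (ProbabilityTheory.cond μ Y) := by
  have h1 := hT.restrict_preimage hY
  have h2 : T ⁻¹' Y = Y := by
    ext x
    exact h x
  rw [h2] at h1
  exact h1.smul_measure _

theorem AFF_proof (hFEK : FEK_stmt) (hCNC : CNC_stmt) (hLOW : LOW_stmt) : AFF_stmt := by
  intro X _ μ T S p P J L ε a hμ hS hP hJ hJT hJL hε ha hinf hcyl hpos δ hδ
  have hYm : MeasurableSet {x | J x ≤ a} := measurableSet_le hJ measurable_const
  have hYT : ∀ x, T x ∈ {x | J x ≤ a} ↔ x ∈ {x | J x ≤ a} := fun x => by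
    simp only [Set.mem_ofPred_eq, hJT]
  generalize hYdef : {x | J x ≤ a} = Y at *
  have hYJ : ∀ x, x ∈ Y ↔ J x ≤ a := fun x => by rw [← hYdef]; rfl
  have hpr : IsProbabilityMeasure (ProbabilityTheory.cond μ Y) :=
    ProbabilityTheory.cond_isProbabilityMeasure hpos.ne'
  have hmp := AFF_mp hS.mp hYm hYT
  have hy : 0 < μ.real Y := by
    rw [Measure.real]
    exact ENNReal.toReal_pos hpos.ne' (measure_ne_top μ Y)
  have hint : Integrable J μ :=
    Integrable.of_bound hJ.aestronglyMeasurable L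
      (Eventually.of_forall fun x => by
        rw [Real.norm_eq_abs, abs_of_nonneg (hJL x).1]
        exact (hJL x).2)
  obtain ⟨h, -, hh, hh2⟩ := hFEK X μ T p P hμ hS.mp hP
  obtain ⟨h', -, hh', -⟩ := hFEK X _ T p P hpr hmp hP
  have hle : h ≤ ∫ x, J x ∂μ + ε := by
    rw [← hh2] at hinf
    exact_mod_cast hinf
  have hsplit : ∫ x, J x ∂μ = ∫ x in Y, J x ∂μ + ∫ x in Yᶜ, J x ∂μ := (integral_add_compl hYm hint).symm
  have hYint : ∫ x in Y, J x ∂μ ≤ a * μ.real Y := by
    have h1 : ∫ x in Y, J x ∂μ ≤ ∫ x in Y, a ∂μ :=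
      setIntegral_mono_on hint.integrableOn (integrableOn_const (measure_ne_top μ Y)) hYm
        fun x hx => (hYJ x).1 hx
    rw [setIntegral_const, smul_eq_mul] at h1
    linarith
  have key : h' ≤ a + 2 * ε / μ.real Y := by
    rcases eq_or_ne (μ Yᶜ) 0 with hc | hc
    · have h1 : μ.real Y = 1 := by
        rw [prob_compl_eq_zero_iff hYm] at hc
        rw [Measure.real, hc, ENNReal.toReal_one]
      have h2 : ProbabilityTheory.cond μ Y = μ := by
        unfold ProbabilityTheory.cond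
        rw [prob_compl_eq_zero_iff hYm] at hc
        rw [hc, inv_one, one_smul]
        exact Measure.restrict_eq_self_of_ae_mem ((mem_ae_iff_prob_eq_one hYm).2 hc)
      rw [h2] at hh'
      have h3 := tendsto_nhds_unique hh hh'
      have h4 : ∫ x in Yᶜ, J x ∂μ = 0 := by
        rw [Measure.restrict_eq_zero.2 hc, integral_zero_measure]
      rw [h1] at hYint ⊢
      rw [div_one]
      linarith
    · have hposc : 0 < μ Yᶜ := pos_iff_ne_zero.2 hc
      have hyc : 0 < μ.real Yᶜ := by
        rw [Measure.real]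
        exact ENNReal.toReal_pos hc (measure_ne_top μ Yᶜ)
      have hsum : μ.real Y + μ.real Yᶜ = 1 := by
        rw [measureReal_compl hYm]
        simp
      have hcondint : μ.real Yᶜ * ∫ x, J x ∂(ProbabilityTheory.cond μ Yᶜ) = ∫ x in Yᶜ, J x ∂μ := by
        unfold ProbabilityTheory.cond
        rw [integral_smul_measure, ENNReal.toReal_inv, smul_eq_mul, ← mul_assoc]
        change μ.real Yᶜ * (μ.real Yᶜ)⁻¹ * _ = _
        rw [mul_inv_cancel₀ hyc.ne', one_mul]
      have h1 : ∀ δ' : ℝ, 0 < δ' → μ.real Y * h' + μ.real Yᶜ * (∫ x, J x ∂(ProbabilityTheory.cond μ Yᶜ) - ε - δ') ≤ h := by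
        intro δ' hδ'
        have hlow := hLOW X μ T S p P J L ε Yᶜ hμ hS hP hJ hJL hYm.compl
          (fun x => by rw [mem_compl_iff, mem_compl_iff, hYT]) hposc hε hcyl δ' hδ'
        have hodd : Tendsto (fun n : ℕ => 2 * n + 1) atTop atTop :=
          tendsto_atTop_mono (fun n => by simp only [id]; omega) tendsto_id
        have l1 := (hh'.comp hodd).const_mul (μ.real Y)
        have l2 := l1.add_const (μ.real Yᶜ * (∫ x, J x ∂(ProbabilityTheory.cond μ Yᶜ) - ε - δ'))
        have l3 := hh.comp hodd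
        refine le_of_tendsto_of_tendsto l2 l3 ?_
        filter_upwards [hlow] with n hn
        have hcnc := hCNC X μ T p P Y (2 * n + 1) hμ hS.mp.measurable hP hYm hpos hposc
        have hN : (0 : ℝ) < ((2 * n + 1 : ℕ) : ℝ) := by positivity
        simp only [Function.comp_apply]
        rw [← mul_div_assoc, ← sub_nonneg]
        have h5 : μ.real Yᶜ * (((2 * n + 1 : ℕ) : ℝ) * (∫ x, J x ∂(ProbabilityTheory.cond μ Yᶜ) - ε - δ')) ≤
            μ.real Yᶜ * Hn (ProbabilityTheory.cond μ Yᶜ) T P (2 * n + 1) :=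
          mul_le_mul_of_nonneg_left hn hyc.le
        have h6 : Hn μ T P (2 * n + 1) / ((2 * n + 1 : ℕ) : ℝ) -
            (μ.real Y * Hn (ProbabilityTheory.cond μ Y) T P (2 * n + 1) / ((2 * n + 1 : ℕ) : ℝ) +
              μ.real Yᶜ * (∫ x, J x ∂(ProbabilityTheory.cond μ Yᶜ) - ε - δ')) =
            (Hn μ T P (2 * n + 1) - μ.real Y * Hn (ProbabilityTheory.cond μ Y) T P (2 * n + 1) -
              μ.real Yᶜ * (((2 * n + 1 : ℕ) : ℝ) * (∫ x, J x ∂(ProbabilityTheory.cond μ Yᶜ) - ε - δ'))) /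
              ((2 * n + 1 : ℕ) : ℝ) := by
          field_simp
          ring
        rw [h6]
        exact div_nonneg (by linarith) hN.le
      have h2 : μ.real Y * h' + μ.real Yᶜ * (∫ x, J x ∂(ProbabilityTheory.cond μ Yᶜ) - ε) ≤ h := by
        refine le_of_forall_pos_le_add fun η hη => ?_
        have h3 := h1 (η / μ.real Yᶜ) (div_pos hη hyc)
        have h4 : μ.real Yᶜ * (∫ x, J x ∂(ProbabilityTheory.cond μ Yᶜ) - ε - η / μ.real Yᶜ) =
            μ.real Yᶜ * (∫ x, J x ∂(ProbabilityTheory.cond μ Yᶜ) - ε) - η := by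
          field_simp
        rw [h4] at h3
        linarith
      have h3 : μ.real Y * h' ≤ a * μ.real Y + 2 * ε := by
        have h4 : μ.real Yᶜ * (∫ x, J x ∂(ProbabilityTheory.cond μ Yᶜ) - ε) =
            ∫ x in Yᶜ, J x ∂μ - μ.real Yᶜ * ε := by
          rw [mul_sub, hcondint]
        rw [h4] at h2
        nlinarith
      have h4 : a + 2 * ε / μ.real Y = (a * μ.real Y + 2 * ε) / μ.real Y := by
        field_simp
      rw [h4, le_div_iff₀ hy]
      linarith
  have hlt : h' < a + 2 * ε / μ.real Y + δ := by linarith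
  filter_upwards [hh'.eventually_lt_const hlt, eventually_gt_atTop 0] with N hN hN0
  have hN1 : (0 : ℝ) < N := by exact_mod_cast hN0
  rw [div_lt_iff₀ hN1] at hN
  linarith

end Pool.Agent.MS
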