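import Pool.Agent.helper75.MS.Digits

set_option autoImplicit false

namespace Pool.Agent.helper75.MS

theorem S_add_pow {p : ℕ} (hp : 1 < p) (k : ℕ) : ∀ a b : ℕ, a < p ^ k → S p (a + p ^ k * b) = S p a + S p b := by
  induction k with
  | zero =>
    intro a b ha
    have : a = 0 := by simpa using ha
    subst this
    simp [S]
  | succ k ih =>
    intro a b ha
    have h1 : a % p < p := Nat.mod_lt _ (by omega)
    have h2 : a / p < p ^ k := by
      apply Nat.div_lt_of_lt_mul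
      rw [pow_succ] at ha
      linarith [Nat.mul_comm p (p ^ k)]
    have h3 : a = a % p + p * (a / p) := (Nat.mod_add_div a p).symm
    have h4 : a + p ^ (k + 1) * b = a % p + p * (a / p + p ^ k * b) := by
      conv_lhs => rw [h3]
      ring
    have h5 : S p a = a % p + S p (a / p) := by
      conv_lhs => rw [h3]
      exact S_add hp _ _ h1
    rw [h4, S_add hp _ _ h1, ih _ _ h2, h5]
    ring

theorem HS_six_three {p d : ℕ} (hp : p.Prime) (hp3 : 3 < p) (_hd : Nat.Coprime d (p ^ 6 - 1))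
    (hd1 : d ≡ 1 [MOD p - 1]) (H : HS p 6 3 d) : HS p 3 2 d := by
  intro j h1 h2
  have hp1 : 1 < p := hp.one_lt
  have h64 : 64 ≤ p ^ 3 := by
    calc 64 = 4 ^ 3 := by norm_num
      _ ≤ p ^ 3 := Nat.pow_le_pow_left hp3 3
  have h6 : p ^ 6 - 1 = (p ^ 3 - 1) * (1 + p ^ 3) := by
    have h : p ^ 6 = p ^ 3 * p ^ 3 := by ring
    rw [h]
    obtain ⟨q, hq⟩ : ∃ q, p ^ 3 = q + 1 := ⟨p ^ 3 - 1, by omega⟩
    rw [hq]
    have : (q + 1) * (q + 1) = q * (1 + (q + 1)) + 1 := by ring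
    rw [this]
    simp
  have hj3 : j < p ^ 3 := by omega
  have hj : 1 ≤ j * (1 + p ^ 3) := Nat.one_le_iff_ne_zero.mpr (by positivity)
  have hj' : j * (1 + p ^ 3) ≤ p ^ 6 - 2 := by
    have e1 : j * (1 + p ^ 3) ≤ (p ^ 3 - 2) * (1 + p ^ 3) := Nat.mul_le_mul_right _ h2
    have e2 : (p ^ 3 - 2) * (1 + p ^ 3) + 1 * (1 + p ^ 3) = (p ^ 3 - 1) * (1 + p ^ 3) := by
      rw [← Nat.add_mul]
      congr 1
      omega
    rw [← h6] at e2
    omega
  have h := H _ hj hj'
  have e3 : (d * (j * (1 + p ^ 3))) % (p ^ 6 - 1) = ((d * j) % (p ^ 3 - 1)) * (1 + p ^ 3) := by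
    rw [h6, ← mul_assoc, Nat.mul_mod_mul_right]
  set t := (d * j) % (p ^ 3 - 1) with ht
  have ht3 : t < p ^ 3 := by
    have : t < p ^ 3 - 1 := Nat.mod_lt _ (by omega)
    omega
  have e4 : S p (t * (1 + p ^ 3)) = S p t + S p t := by
    have : t * (1 + p ^ 3) = t + p ^ 3 * t := by ring
    rw [this, S_add_pow hp1 3 t t ht3]
  have e5 : S p (j * (1 + p ^ 3)) = S p j + S p j := by
    have : j * (1 + p ^ 3) = j + p ^ 3 * j := by ring
    rw [this, S_add_pow hp1 3 j j hj3]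
  rw [e3, e4, e5] at h
  -- congruence
  have hmod : p % (p - 1) = 1 := by
    obtain ⟨q, hq⟩ : ∃ q, p = q + 1 := ⟨p - 1, by omega⟩
    rw [hq, Nat.add_sub_cancel, Nat.add_comm, Nat.add_mod_right]
    exact Nat.mod_eq_of_lt (by omega)
  have c1 : t ≡ S p t [MOD p - 1] := Nat.modEq_digits_sum _ _ hmod t
  have c2 : j ≡ S p j [MOD p - 1] := Nat.modEq_digits_sum _ _ hmod j
  have hdiv : (p - 1) ∣ (p ^ 3 - 1) := by
    simpa using Nat.sub_dvd_pow_sub_pow p 1 3
  have c3 : t ≡ d * j [MOD p - 1] := (Nat.mod_modEq (d * j) (p ^ 3 - 1)).of_dvd hdiv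
  have c4 : d * j ≡ j [MOD p - 1] := by
    simpa using hd1.mul_right j
  have c5 : S p t ≡ S p j [MOD p - 1] := c1.symm.trans (c3.trans (c4.trans c2))
  rcases le_or_gt (S p t) (S p j) with hle | hgt
  · omega
  · have c6 : (p - 1) ∣ (S p t - S p j) := (Nat.modEq_iff_dvd' hgt.le).mp c5.symm
    obtain ⟨k, hk⟩ := c6
    have hk2 : k ≤ 1 := by
      by_contra hcon
      have : 2 ≤ k := by omega
      have : (p - 1) * 2 ≤ (p - 1) * k := Nat.mul_le_mul_left _ this
      omega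
    have : (p - 1) * k ≤ (p - 1) * 1 := Nat.mul_le_mul_left _ hk2
    omega

end Pool.Agent.helper75.MS
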